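import Pool.Agent.TH703.HU.Stm

/-!
# Project HU, piece B3: existence of minimizers
-/

set_option autoImplicit false

open MeasureTheory Set Metric Filter Topology
open scoped ENNReal Real

noncomputable section

namespace Pool.Agent.TH359.HU

open Pool.Agent.TH304.MI Pool.Agent.TH703.HU

theorem norm_sc_le {b : ℕ} {ε : ℝ} (h0 : 0 < ε) (h1 : ε ≤ 1) (p : PP b) :
    ‖sc ε p‖ ≤ ‖sc 1 p‖ := by
  rw [EuclideanSpace.norm_eq, EuclideanSpace.norm_eq]
  refine Real.sqrt_le_sqrt (Finset.sum_le_sum fun i _ => ?_)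
  refine pow_le_pow_left₀ (norm_nonneg _) ?_ 2
  show ‖(if (i : ℕ) < 2 then p i else ε * p i : ℝ)‖ ≤ ‖(if (i : ℕ) < 2 then p i else 1 * p i : ℝ)‖
  split_ifs with h
  · exact le_rfl
  · rw [norm_mul, norm_mul, Real.norm_of_nonneg h0.le, norm_one]
    exact mul_le_mul_of_nonneg_right h1 (norm_nonneg _)

theorem PLe.one {b : ℕ} {ε : ℝ} (h0 : 0 < ε) (h1 : ε ≤ 1) {Ω E : Set (PP b)} {C : ℝ}
    (h : PLe ε Ω E C) : PLe 1 Ω E C := fun φ hφ =>
  h φ ⟨hφ.cd, hφ.cs, hφ.sub, fun x => (norm_sc_le h0 h1 (φ x)).trans (hφ.bd x)⟩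

theorem PLe.mono' {b : ℕ} {ε : ℝ} {Ω E : Set (PP b)} {C C' : ℝ} (h : PLe ε Ω E C) (hC : C ≤ C') :
    PLe ε Ω E C' := fun φ hφ => (h φ hφ).trans hC

theorem dv_zero {n : ℕ} (x : EuclideanSpace ℝ (Fin n)) :
    dv (fun _ : EuclideanSpace ℝ (Fin n) => (0 : EuclideanSpace ℝ (Fin n))) x = 0 := by
  unfold dv
  have h1 : fderiv ℝ (fun _ : EuclideanSpace ℝ (Fin n) => (0 : EuclideanSpace ℝ (Fin n))) x = 0 := by
    simp
  rw [h1]
  have h2 : (0 : EuclideanSpace ℝ (Fin n) →L[ℝ] EuclideanSpace ℝ (Fin n)).toLinearMap = 0 := rfl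
  rw [h2, map_zero]

theorem fld_zero {b : ℕ} (ε : ℝ) (Ω : Set (PP b)) : Fld ε Ω (fun _ => (0 : PP b)) := by
  refine ⟨contDiff_const, HasCompactSupport.zero, ?_, fun x => ?_⟩
  · have h : tsupport (fun _ : PP b => (0 : PP b)) = ∅ := by
      rw [tsupport_eq_empty_iff]
      rfl
    rw [h]
    exact empty_subset _
  · have h : sc ε (0 : PP b) = 0 := by
      ext i
      show (if (i : ℕ) < 2 then (0 : PP b) i else ε * (0 : PP b) i) = (0 : PP b) i
      simp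
    rw [h, norm_zero]
    norm_num

theorem PLe.nonneg {b : ℕ} {ε : ℝ} {Ω E : Set (PP b)} {C : ℝ} (h : PLe ε Ω E C) : 0 ≤ C := by
  have h1 := h _ (fld_zero ε Ω)
  simp only [dv_zero, integral_zero] at h1
  exact h1

theorem PLe_empty {b : ℕ} (ε : ℝ) (Ω : Set (PP b)) : PLe ε Ω ∅ 0 := by
  intro φ _
  rw [Measure.restrict_empty, integral_zero_measure]

/-- **B3.** Existence of minimizers. -/
theorem b3 (b1 : S_B1) (b2 : S_B2) : S_B3 := by
  intro b Ω hO hC hB ε Λ v hε hε1 hΛ hv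
  have hfin : ∀ G : Set (PP b), G ⊆ Ω → volume G ≠ ∞ := fun G hG =>
    (hB.subset hG).measure_lt_top.ne
  obtain ⟨S, hS⟩ : ∃ S : Set ℝ, S = {e : ℝ | ∃ (G : Set (PP b)) (C : ℝ), MeasurableSet G ∧ G ⊆ Ω ∧
      volume.real G ≤ v ∧ PLe ε Ω G C ∧ e = C - Λ * volume.real G} := ⟨_, rfl⟩
  have hne : S.Nonempty := by
    rw [hS]
    refine ⟨0, ∅, 0, MeasurableSet.empty, empty_subset _, by simpa using hv, PLe_empty ε Ω, ?_⟩
    simp
  have hbdd : BddBelow S := by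
    refine ⟨-(Λ * v), ?_⟩
    rw [hS]
    rintro e ⟨G, C, -, -, hGv, hP, rfl⟩
    have h1 := PLe.nonneg hP
    have h2 := mul_le_mul_of_nonneg_left hGv hΛ
    linarith
  obtain ⟨I, hI⟩ : ∃ I, I = sInf S := ⟨_, rfl⟩
  have hex : ∀ k : ℕ, ∃ (G : Set (PP b)) (C : ℝ), MeasurableSet G ∧ G ⊆ Ω ∧
      volume.real G ≤ v ∧ PLe ε Ω G C ∧ C - Λ * volume.real G < I + 1 / ((k : ℝ) + 1) := by
    intro k
    have h1 : sInf S < I + 1 / ((k : ℝ) + 1) := by
      rw [← hI]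
      have : (0 : ℝ) < 1 / ((k : ℝ) + 1) := by positivity
      linarith
    obtain ⟨e, he, hlt⟩ := exists_lt_of_csInf_lt hne h1
    rw [hS] at he
    obtain ⟨G, C, a1, a2, a3, a4, rfl⟩ := he
    exact ⟨G, C, a1, a2, a3, a4, hlt⟩
  choose G C hGm hGs hGv hGP hGe using hex
  have hM : ∀ k, PLe 1 Ω (G k) (I + 1 + Λ * v) := by
    intro k
    refine PLe.mono' (PLe.one hε hε1 (hGP k)) ?_
    have h1 := hGe k
    have h2 : 1 / ((k : ℝ) + 1) ≤ 1 := by
      rw [div_le_one (by positivity)]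
      have : (0 : ℝ) ≤ k := Nat.cast_nonneg k
      linarith
    have h3 := mul_le_mul_of_nonneg_left (hGv k) hΛ
    linarith
  obtain ⟨F, ψ, hFm, hFs, hψ, hlim⟩ := b1 b Ω hO hC hB G _ hGm hGs hM
  have hlimr : Tendsto (fun k => volume.real (symmDiff (G (ψ k)) F)) atTop (𝓝 0) := by
    have := (ENNReal.tendsto_toReal ENNReal.zero_ne_top).comp hlim
    rw [ENNReal.toReal_zero] at this
    exact this
  have hvol : Tendsto (fun k => volume.real (G (ψ k))) atTop (𝓝 (volume.real F)) := by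
    rw [tendsto_iff_norm_sub_tendsto_zero]
    refine squeeze_zero (fun _ => norm_nonneg _) (fun k => ?_) hlimr
    exact abs_measureReal_sub_le_measureReal_symmDiff' (hGm _).nullMeasurableSet
      hFm.nullMeasurableSet (hfin _ (hGs _)) (hfin _ hFs)
  have hFv : volume.real F ≤ v := le_of_tendsto' hvol fun k => hGv _
  have hFP : PLe ε Ω F (I + Λ * volume.real F) := by
    intro φ hφ
    have h1 := b2 b (fun k => G (ψ k)) F (fun k => hGm _) hFm hlim φ hφ.cd hφ.cs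
    have h2 : Tendsto (fun k : ℕ => I + 1 / ((ψ k : ℝ) + 1) + Λ * volume.real (G (ψ k))) atTop
        (𝓝 (I + 0 + Λ * volume.real F)) := by
      refine Tendsto.add (tendsto_const_nhds.add ?_) (hvol.const_mul Λ)
      exact tendsto_one_div_add_atTop_nhds_zero_nat.comp hψ.tendsto_atTop
    rw [add_zero] at h2
    refine le_of_tendsto_of_tendsto' h1 h2 fun k => ?_
    have h3 := hGP (ψ k) φ hφ
    have h4 := hGe (ψ k)
    linarith
  refine ⟨F, hFm, hFs, hFv, fun G' C' hG'm hG's hG'v hG'P => ?_⟩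
  refine PLe.mono' hFP ?_
  have h1 : I ≤ C' - Λ * volume.real G' := by
    rw [hI]
    refine csInf_le hbdd ?_
    rw [hS]
    exact ⟨G', C', hG'm, hG's, hG'v, hG'P, rfl⟩
  linarith

end Pool.Agent.TH359.HU
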